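import Mathlib

/-!
# Affine groups over modules, perturbation of homomorphisms, and the words `W1`, `W2`
-/

set_option autoImplicit false

namespace Pool.Agent.VC

/-- The group of pairs `(v, c)`, `v` in an `R`-module `M`, `c` a unit of `R`, with
`(v, c) (v', c') = (v + c v', c c')`. -/
@[ext] structure Aff (R M : Type*) [CommRing R] [AddCommGroup M] [Module R M] where
  v : M
  c : Rˣ

namespace Aff

variable {R M : Type*} [CommRing R] [AddCommGroup M] [Module R M]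

instance : Mul (Aff R M) := ⟨fun g h => ⟨g.v + (g.c : R) • h.v, g.c * h.c⟩⟩
instance : One (Aff R M) := ⟨⟨0, 1⟩⟩
instance : Inv (Aff R M) := ⟨fun g => ⟨-(((g.c⁻¹ : Rˣ) : R) • g.v), g.c⁻¹⟩⟩

@[simp] lemma mul_v (g h : Aff R M) : (g * h).v = g.v + (g.c : R) • h.v := rfl
@[simp] lemma mul_c (g h : Aff R M) : (g * h).c = g.c * h.c := rfl
@[simp] lemma one_v : (1 : Aff R M).v = 0 := rfl
@[simp] lemma one_c : (1 : Aff R M).c = 1 := rfl
@[simp] lemma inv_v (g : Aff R M) : (g⁻¹).v = -(((g.c⁻¹ : Rˣ) : R) • g.v) := rfl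
@[simp] lemma inv_c (g : Aff R M) : (g⁻¹).c = g.c⁻¹ := rfl

instance : Group (Aff R M) where
  mul_assoc g h k := by
    ext
    · simp [mul_smul, add_assoc]
    · simp [mul_assoc]
  one_mul g := by ext <;> simp
  mul_one g := by ext <;> simp
  inv_mul_cancel g := by ext <;> simp

/-- The linear part. -/
def cHom : Aff R M →* Rˣ where
  toFun g := g.c
  map_one' := rfl
  map_mul' _ _ := rfl

@[simp] lemma cHom_apply (g : Aff R M) : cHom g = g.c := rfl

/-- The affine group is metabelian. -/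
lemma derived_two : derivedSeries (Aff R M) 2 = ⊥ := by
  have h1 : derivedSeries (Aff R M) 1 ≤ (cHom (R := R) (M := M)).ker := by
    rw [derivedSeries_one]
    exact Abelianization.commutator_subset_ker _
  rw [eq_bot_iff, derivedSeries_succ]
  refine (Subgroup.commutator_mono h1 h1).trans ?_
  rw [Subgroup.commutator_le]
  intro g hg h hh
  rw [MonoidHom.mem_ker, cHom_apply] at hg hh
  rw [Subgroup.mem_bot, commutatorElement_def]
  ext
  · simp [hg, hh]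
  · simp [hg, hh]

lemma map_derived {G : Type*} [Group G] (Ψ : G →* Aff R M) {g : G}
    (hg : g ∈ derivedSeries G 2) : Ψ g = 1 := by
  have h := map_derivedSeries_le_derivedSeries Ψ 2
  have : Ψ g ∈ derivedSeries (Aff R M) 2 := h (Subgroup.mem_map_of_mem Ψ hg)
  rw [derived_two] at this
  exact Subgroup.mem_bot.mp this

/-- The map `(v, c) ↦ (Σ v_j z_j, c)`. -/
def mapv {n : ℕ} (z : Fin n → M) : Aff R (Fin n → R) →* Aff R M where
  toFun g := ⟨∑ j, g.v j • z j, g.c⟩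
  map_one' := by ext <;> simp
  map_mul' g h := by
    ext
    · simp [add_smul, Finset.sum_add_distrib, Finset.smul_sum, mul_smul]
    · simp

end Aff

section Fox

variable {R : Type*} [CommRing R] {n : ℕ}

/-- Fox calculus as a homomorphism. -/
def fox (χ : Fin n → Rˣ) : FreeGroup (Fin n) →* Aff R (Fin n → R) :=
  FreeGroup.lift (fun j => ⟨Pi.single j 1, χ j⟩)

lemma lift_eq_fox {M : Type*} [AddCommGroup M] [Module R M] (χ : Fin n → Rˣ) (z : Fin n → M)
    (w : FreeGroup (Fin n)) :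
    (FreeGroup.lift (fun j => (⟨z j, χ j⟩ : Aff R M))) w =
      ⟨∑ j, (fox χ w).v j • z j, (fox χ w).c⟩ := by
  have h : (FreeGroup.lift (fun j => (⟨z j, χ j⟩ : Aff R M))) = (Aff.mapv z).comp (fox χ) := by
    ext j
    · simp [fox, Aff.mapv, Pi.single_apply]
    · simp [fox, Aff.mapv]
  rw [h]
  rfl

end Fox

/-- A group with an abelian normal subgroup that is a module over a commutative ring. -/
structure Setup (G R M : Type*) [Group G] [CommRing R] [AddCommGroup M] [Module R M] where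
  ι : Multiplicative M →* G
  χ : G →* Rˣ
  conj : ∀ (g : G) (m : M), g * ι (Multiplicative.ofAdd m) * g⁻¹ =
    ι (Multiplicative.ofAdd ((χ g : R) • m))
  χι : ∀ m : M, χ (ι (Multiplicative.ofAdd m)) = 1

namespace Setup

variable {G R M : Type*} [Group G] [CommRing R] [AddCommGroup M] [Module R M]
  (S : Setup G R M)

/-- the inclusion, additive form -/
def i (m : M) : G := S.ι (Multiplicative.ofAdd m)

lemma i_add (a b : M) : S.i (a + b) = S.i a * S.i b := by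
  simp [i, ofAdd_add]

lemma i_zero : S.i 0 = 1 := by simp [i]

lemma i_neg (a : M) : S.i (-a) = (S.i a)⁻¹ := by
  simp [i, ofAdd_neg]

lemma mul_i (g : G) (m : M) : g * S.i m = S.i ((S.χ g : R) • m) * g := by
  have := S.conj g m
  unfold i
  rw [← this]
  group

/-- Perturbation formula. -/
lemma perturb {n : ℕ} (ρ0 : Fin n → G) (z : Fin n → M) (w : FreeGroup (Fin n)) :
    FreeGroup.lift (fun j => S.i (z j) * ρ0 j) w =
      S.i ((FreeGroup.lift (fun j => (⟨z j, S.χ (ρ0 j)⟩ : Aff R M)) w).v) *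
        FreeGroup.lift ρ0 w ∧
    (FreeGroup.lift (fun j => (⟨z j, S.χ (ρ0 j)⟩ : Aff R M)) w).c =
      S.χ (FreeGroup.lift ρ0 w) := by
  induction w using FreeGroup.induction_on with
  | C1 => simp [i_zero]
  | of j => simp
  | inv_of j hj =>
    obtain ⟨h1, h2⟩ := hj
    simp only [map_inv, FreeGroup.lift_apply_of, mul_inv_rev, Aff.inv_v, Aff.inv_c, and_true]
    rw [← S.i_neg, S.mul_i]
    simp
  | mul x y hx hy =>
    obtain ⟨h1, h2⟩ := hx
    obtain ⟨h3, h4⟩ := hy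
    simp only [map_mul, Aff.mul_v, Aff.mul_c]
    rw [h1, h3, h2, h4]
    refine ⟨?_, rfl⟩
    rw [S.i_add, mul_assoc, ← mul_assoc (FreeGroup.lift ρ0 x), S.mul_i]
    simp only [mul_assoc]

end Setup

section Words

variable {G : Type*} [Group G]

/-- `T y g = [g, y] g` -/
def T (y g : G) : G := g * y * g⁻¹ * y⁻¹ * g

/-- `κ h y = [h, y]` -/
def kap (h y : G) : G := h * y * h⁻¹ * y⁻¹

/-- the second generator -/
def H2 (x : Fin 7 → G) : G := T (x 3) (T (x 4) (T (x 5) (x 1)))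

/-- the first generator -/
def H1 (x : Fin 7 → G) : G :=
  (x 1 ^ 2 * x 3 ^ 5 * kap (H2 x) (x 6) * (x 1 ^ 2 * x 3 ^ 5)⁻¹) *
  (x 2 * (kap (H2 x) (x 6))⁻¹ * (x 2)⁻¹) *
  (x 2 * x 6 * (x 2)⁻¹ * (x 6)⁻¹) *
  (x 0 * kap (H2 x) (x 4) * (x 0)⁻¹) *
  (x 4 * (kap (H2 x) (x 4))⁻¹ * (x 4)⁻¹) *
  (x 2 * kap (H2 x) (x 5) * (x 2)⁻¹) *
  (x 5 * (kap (H2 x) (x 5))⁻¹ * (x 5)⁻¹) *
  T (H2 x) (x 0)

/-- the three generators of the subgroup -/
def gens (x : Fin 7 → G) : Fin 3 → G := ![H1 x, H2 x, x 2]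

lemma map_H2 {G' : Type*} [Group G'] (f : G →* G') (x : Fin 7 → G) :
    f (H2 x) = H2 (fun j => f (x j)) := by
  simp [H2, T]

lemma map_H1 {G' : Type*} [Group G'] (f : G →* G') (x : Fin 7 → G) :
    f (H1 x) = H1 (fun j => f (x j)) := by
  simp only [H1, kap, T, map_mul, map_inv, map_pow, map_H2]

variable {R M : Type*} [CommRing R] [AddCommGroup M] [Module R M]

lemma T_c (y g : Aff R M) : (T y g).c = g.c := by
  simp only [T, Aff.mul_c, Aff.inv_c]
  rw [mul_comm g.c y.c, mul_assoc y.c g.c, mul_inv_cancel, mul_one, mul_inv_cancel, one_mul]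

lemma T_v (y g : Aff R M) : (T y g).v = (2 - (y.c : R)) • g.v + ((g.c : R) - 1) • y.v := by
  obtain ⟨gv, gc⟩ := g
  obtain ⟨yv, yc⟩ := y
  simp only [T, Aff.mul_v, Aff.inv_v, Aff.mul_c, Aff.inv_c, Units.val_mul, smul_neg, smul_smul]
  have h1 : (gc : R) * yc * (((gc⁻¹ : Rˣ)) : R) = yc := by
    rw [mul_comm (gc : R), mul_assoc, Units.mul_inv, mul_one]
  have h2 : (gc : R) * yc * ((gc⁻¹ : Rˣ) : R) * ((yc⁻¹ : Rˣ) : R) = 1 := by
    rw [h1, Units.mul_inv]
  rw [h2, h1]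
  module

lemma kap_c (h y : Aff R M) : (kap h y).c = 1 := by
  simp only [kap, Aff.mul_c, Aff.inv_c]
  rw [mul_comm h.c, mul_assoc y.c, mul_inv_cancel, mul_one, mul_inv_cancel]

lemma kap_v (h y : Aff R M) : (kap h y).v = (1 - (y.c : R)) • h.v + ((h.c : R) - 1) • y.v := by
  obtain ⟨gv, gc⟩ := h
  obtain ⟨yv, yc⟩ := y
  simp only [kap, Aff.mul_v, Aff.inv_v, Aff.mul_c, Aff.inv_c, Units.val_mul, smul_neg, smul_smul]
  have h1 : (gc : R) * yc * (((gc⁻¹ : Rˣ)) : R) = yc := by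
    rw [mul_comm (gc : R), mul_assoc, Units.mul_inv, mul_one]
  have h2 : (gc : R) * yc * ((gc⁻¹ : Rˣ) : R) * ((yc⁻¹ : Rˣ) : R) = 1 := by
    rw [h1, Units.mul_inv]
  rw [h2, h1]
  module

/-- conjugation of an element with trivial linear part -/
lemma conj_v (g k : Aff R M) (hk : k.c = 1) : (g * k * g⁻¹).v = (g.c : R) • k.v := by
  simp only [Aff.mul_v, Aff.mul_c, hk, mul_one, Aff.inv_v, smul_neg, smul_smul, Units.mul_inv,
    one_smul]
  abel

lemma conj_c (g k : Aff R M) (hk : k.c = 1) : (g * k * g⁻¹).c = 1 := by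
  simp [hk]

lemma inv_v' (k : Aff R M) (hk : k.c = 1) : (k⁻¹).v = - k.v := by
  simp [hk]

lemma mul_v' (k l : Aff R M) (hk : k.c = 1) : (k * l).v = k.v + l.v := by
  simp [hk]

lemma H2_c (x : Fin 7 → Aff R M) : (H2 x).c = (x 1).c := by
  simp only [H2, T_c]

/-- the linear form of `H2` -/
def F2 (χ : Fin 7 → R) (z : Fin 7 → M) : M :=
  (2 - χ 3) • ((2 - χ 4) • ((2 - χ 5) • z 1 + (χ 1 - 1) • z 5) + (χ 1 - 1) • z 4) + (χ 1 - 1) • z 3

/-- the linear form of `H1` -/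
def F1 (χ : Fin 7 → R) (z : Fin 7 → M) : M :=
  (χ 1 ^ 2 * χ 3 ^ 5 - χ 2) • ((1 - χ 6) • F2 χ z + (χ 1 - 1) • z 6) +
  ((1 - χ 6) • z 2 + (χ 2 - 1) • z 6) +
  (χ 0 - χ 4) • ((1 - χ 4) • F2 χ z + (χ 1 - 1) • z 4) +
  (χ 2 - χ 5) • ((1 - χ 5) • F2 χ z + (χ 1 - 1) • z 5) +
  ((2 - χ 1) • z 0 + (χ 0 - 1) • F2 χ z)

lemma H2_v (x : Fin 7 → Aff R M) :
    (H2 x).v = F2 (fun j => ((x j).c : R)) (fun j => (x j).v) := by
  simp only [H2, T_v, T_c, F2]

lemma H1_c (x : Fin 7 → Aff R M) : (H1 x).c = (x 0).c := by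
  simp only [H1, Aff.mul_c, Aff.inv_c, kap_c, T_c]
  simp only [inv_one, mul_one, one_mul, mul_inv_cancel]
  rw [show (x 2).c * (x 6).c * ((x 2).c)⁻¹ * ((x 6).c)⁻¹ = 1 from by
    rw [mul_comm (x 2).c, mul_assoc (x 6).c, mul_inv_cancel, mul_one, mul_inv_cancel]]
  simp

lemma H1_v (x : Fin 7 → Aff R M) :
    (H1 x).v = F1 (fun j => ((x j).c : R)) (fun j => (x j).v) := by
  have hk : ∀ y, (kap (H2 x) y).c = 1 := fun y => kap_c _ _
  have hki : ∀ y, ((kap (H2 x) y)⁻¹).c = 1 := fun y => by simp [hk]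
  have hc : (x 2 * x 6 * (x 2)⁻¹ * (x 6)⁻¹).c = 1 := kap_c (x 2) (x 6)
  have hcv : (x 2 * x 6 * (x 2)⁻¹ * (x 6)⁻¹).v =
    (1 - ((x 6).c : R)) • (x 2).v + (((x 2).c : R) - 1) • (x 6).v := kap_v (x 2) (x 6)
  have e1 : (x 1 ^ 2 * x 3 ^ 5).c = (x 1).c ^ 2 * (x 3).c ^ 5 := by
    rw [Aff.mul_c, ← Aff.cHom_apply (x 1 ^ 2), ← Aff.cHom_apply (x 3 ^ 5), map_pow, map_pow,
      Aff.cHom_apply, Aff.cHom_apply]
  unfold H1
  rw [mul_v', mul_v', mul_v', mul_v', mul_v', mul_v', mul_v', conj_v _ _ (hk _), conj_v _ _ (hki _),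
    hcv, conj_v _ _ (hk _), conj_v _ _ (hki _), conj_v _ _ (hk _), conj_v _ _ (hki _), T_v,
    inv_v' _ (hk _), inv_v' _ (hk _), inv_v' _ (hk _), kap_v, kap_v, kap_v, H2_v, H2_c, e1]
  · simp only [F1, Units.val_mul, Units.val_pow_eq_pow_val]
    module
  all_goals simp only [Aff.mul_c, hk, hki, hc, Aff.inv_c]
  all_goals simp

end Words

end Pool.Agent.VC
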