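import Pool.Agent.Lib.MP_f50e59_al.Aff

/-!
# The ideal computation in `ℤ[a, c, b]`
-/

set_option autoImplicit false

open Polynomial

namespace Pool.Agent.VC

section Linear

variable {R M : Type*} [CommRing R] [AddCommGroup M] [Module R M]

lemma F2_add (χ : Fin 7 → R) (z z' : Fin 7 → M) : F2 χ (z + z') = F2 χ z + F2 χ z' := by
  simp only [F2, Pi.add_apply]
  module

lemma F2_smul (χ : Fin 7 → R) (r : R) (z : Fin 7 → M) : F2 χ (r • z) = r • F2 χ z := by
  simp only [F2, Pi.smul_apply]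
  module

lemma F1_add (χ : Fin 7 → R) (z z' : Fin 7 → M) : F1 χ (z + z') = F1 χ z + F1 χ z' := by
  simp only [F1, F2, Pi.add_apply]
  module

lemma F1_smul (χ : Fin 7 → R) (r : R) (z : Fin 7 → M) : F1 χ (r • z) = r • F1 χ z := by
  simp only [F1, F2, Pi.smul_apply]
  module

end Linear

lemma exists_prime_coprime (D : ℤ) (hD : D ≠ 0) :
    ∃ β : ℕ, IsCoprime D (2 ^ (5 * β + 2) - 1) := by
  have hu : IsUnit ((2 : ℕ) : ZMod 5) := by decide
  obtain ⟨p, hpgt, hp, hpm⟩ := Nat.forall_exists_prime_gt_and_eq_mod (q := 5) hu D.natAbs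
  have hp5 : p % 5 = 2 := by
    have := (ZMod.natCast_eq_natCast_iff' p 2 5).mp hpm
    simpa using this
  refine ⟨p / 5, ?_⟩
  have hpe : 5 * (p / 5) + 2 = p := by omega
  rw [hpe]
  rw [Int.isCoprime_iff_gcd_eq_one]
  by_contra hne
  obtain ⟨l, hl, hld⟩ := Nat.exists_prime_and_dvd hne
  have h1 : (l : ℤ) ∣ D := (Int.natCast_dvd_natCast.mpr hld).trans (Int.gcd_dvd_left ..)
  have h2 : (l : ℤ) ∣ 2 ^ p - 1 := (Int.natCast_dvd_natCast.mpr hld).trans (Int.gcd_dvd_right ..)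
  have hle : l ≤ D.natAbs := Nat.le_of_dvd (Int.natAbs_pos.mpr hD) (Int.natCast_dvd.mp h1)
  have : Fact l.Prime := ⟨hl⟩
  have h3 : (2 : ZMod l) ^ p = 1 := by
    have := (ZMod.intCast_zmod_eq_zero_iff_dvd (2 ^ p - 1) l).mpr h2
    push_cast at this
    linear_combination this
  have hp1 : (2 : ZMod l) ≠ 1 := by
    intro h
    have : (1 : ZMod l) = 0 := by linear_combination h
    exact one_ne_zero this
  have : Fact p.Prime := ⟨hp⟩
  have hord : orderOf (2 : ZMod l) = p := orderOf_eq_prime h3 hp1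
  have h20 : (2 : ZMod l) ≠ 0 := by
    intro h
    rw [h, zero_pow hp.ne_zero] at h3
    exact zero_ne_one h3
  have hdvd : orderOf (2 : ZMod l) ∣ l - 1 := ZMod.orderOf_dvd_card_sub_one h20
  rw [hord] at hdvd
  have := Nat.le_of_dvd (by have := hl.two_le; omega) hdvd
  omega

section Core

variable {P : Type*} [CommRing P]

/-- the values of the seven characters -/
def chi (va vb vc : P) (β γ δ σ : ℕ) : Fin 7 → P :=
  ![va, vb, vc, vb ^ β, vb ^ γ, vb ^ δ, vb ^ σ]

/-- The ideal of all values of the linear form. -/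
def JJ (χ : Fin 7 → P) (u : Fin 3 → P) : Ideal P where
  carrier := {x | ∃ z : Fin 7 → P, u 0 * F1 χ z + u 1 * F2 χ z + u 2 * z 2 = x}
  add_mem' := by
    rintro x y ⟨z, rfl⟩ ⟨z', rfl⟩
    refine ⟨z + z', ?_⟩
    rw [F1_add, F2_add, Pi.add_apply]
    ring
  zero_mem' := by
    refine ⟨0, ?_⟩
    have h1 : F1 χ (0 : Fin 7 → P) = 0 := by
      have := F1_smul χ (0 : P) (0 : Fin 7 → P)
      simpa using this
    have h2 : F2 χ (0 : Fin 7 → P) = 0 := by
      have := F2_smul χ (0 : P) (0 : Fin 7 → P)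
      simpa using this
    rw [h1, h2]
    simp
  smul_mem' := by
    rintro r x ⟨z, rfl⟩
    refine ⟨r • z, ?_⟩
    rw [F1_smul, F2_smul, Pi.smul_apply]
    simp only [smul_eq_mul]
    ring

/-- The core identity. -/
theorem core (va vb vc : P) (γ δ : ℕ) (ev : P →+* ℤ) (evb : ev vb = 2)
    (hev : ∀ I : Ideal P, va - (((2 : ℤ) ^ γ : ℤ) : P) ∈ I → vc - (((2 : ℤ) ^ δ : ℤ) : P) ∈ I →
      vb - ((2 : ℤ) : P) ∈ I → ∀ F : P, F - ((ev F : ℤ) : P) ∈ I)
    (u : Fin 3 → P) (hu : ∃ i, ev (u i) ≠ 0) :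
    ∃ (β σ : ℕ) (z : Fin 7 → P),
      u 0 * F1 (chi va vb vc β γ δ σ) z + u 1 * F2 (chi va vb vc β γ δ σ) z + u 2 * z 2 = u 0 := by
  -- choose `σ` and `D`
  obtain ⟨σ, D, hD0, hD⟩ : ∃ (σ : ℕ) (D : ℤ), D ≠ 0 ∧
      (D = ev (u 2) + ev (u 0) * (1 - 2 ^ σ) ∨ (ev (u 0) = 0 ∧ D = ev (u 1))) := by
    by_cases h0 : ev (u 0) = 0
    · obtain ⟨i, hi⟩ := hu
      fin_cases i
      · exact absurd h0 hi
      · exact ⟨0, _, hi, Or.inr ⟨h0, rfl⟩⟩
      · exact ⟨0, _, hi, Or.inl (by simp)⟩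
    · by_cases h2 : ev (u 2) = 0
      · refine ⟨1, _, ?_, Or.inl rfl⟩
        rw [h2]
        simpa using h0
      · exact ⟨0, _, h2, Or.inl (by simp)⟩
  obtain ⟨β, hβ⟩ := exists_prime_coprime D hD0
  refine ⟨β, σ, ?_⟩
  set χ := chi va vb vc β γ δ σ with hχ
  have c0 : χ 0 = va := rfl
  have c1 : χ 1 = vb := rfl
  have c2 : χ 2 = vc := rfl
  have c3 : χ 3 = vb ^ β := rfl
  have c4 : χ 4 = vb ^ γ := rfl
  have c5 : χ 5 = vb ^ δ := rfl
  have c6 : χ 6 = vb ^ σ := rfl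
  set J := JJ χ u with hJ
  have memJ : ∀ z : Fin 7 → P, u 0 * F1 χ z + u 1 * F2 χ z + u 2 * z 2 ∈ J := fun z => ⟨z, rfl⟩
  suffices h : u 0 ∈ J from h
  -- the coefficient of the second row
  set α : P := (χ 1 ^ 2 * χ 3 ^ 5 - χ 2) * (1 - χ 6) + (χ 0 - χ 4) * (1 - χ 4) +
    (χ 2 - χ 5) * (1 - χ 5) + (χ 0 - 1) with hα
  set p : P := u 1 + u 0 * α with hp
  have m0 : u 0 * (2 - vb) ∈ J := by
    have := memJ (Pi.single 0 1)
    convert this using 1
    simp [F1, F2, c1]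
  have m1 : p * ((2 - χ 3) * (2 - χ 4) * (2 - χ 5)) ∈ J := by
    have := memJ (Pi.single 1 1)
    convert this using 1
    simp [F1, F2, hp, hα]
    ring
  have m2 : u 2 + u 0 * (1 - χ 6) ∈ J := by
    have := memJ (Pi.single 2 1)
    convert this using 1
    simp [F1, F2]
    ring
  have m3 : p * (vb - 1) ∈ J := by
    have := memJ (Pi.single 3 1)
    convert this using 1
    simp [F1, F2, hp, hα, c1]
    ring
  have m4 : p * ((2 - χ 3) * (vb - 1)) + u 0 * ((va - vb ^ γ) * (vb - 1)) ∈ J := by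
    have := memJ (Pi.single 4 1)
    convert this using 1
    simp [F1, F2, hp, hα, c0, c1, c4]
    ring
  have m5 : p * ((2 - χ 3) * (2 - χ 4) * (vb - 1)) + u 0 * ((vc - vb ^ δ) * (vb - 1)) ∈ J := by
    have := memJ (Pi.single 5 1)
    convert this using 1
    simp [F1, F2, hp, hα, c1, c2, c5]
    ring
  have m6 : u 0 * ((vb ^ (5 * β + 2) - vc) * (vb - 1) + (vc - 1)) ∈ J := by
    have := memJ (Pi.single 6 1)
    convert this using 1
    simp only [F1, F2, c1, c2, c3, Pi.single_apply]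
    simp
    ring
  -- `p ∈ J`
  have hdv : ∀ n : ℕ, ∃ e : P, vb ^ n = 1 + (vb - 1) * e := by
    intro n
    obtain ⟨e, he⟩ := sub_one_dvd_pow_sub_one vb n
    exact ⟨e, by linear_combination he⟩
  have hpJ : p ∈ J := by
    obtain ⟨e3, h3⟩ := hdv β
    obtain ⟨e4, h4⟩ := hdv γ
    obtain ⟨e5, h5⟩ := hdv δ
    rw [c3, c4, c5, h3, h4, h5] at m1
    have : ∃ e : P, (2 - (1 + (vb - 1) * e3)) * (2 - (1 + (vb - 1) * e4)) *
        (2 - (1 + (vb - 1) * e5)) = 1 + (vb - 1) * e :=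
      ⟨- e3 - e4 - e5 + (vb - 1) * (e3 * e4 + e3 * e5 + e4 * e5) - (vb - 1) ^ 2 * (e3 * e4 * e5),
        by ring⟩
    obtain ⟨e, he⟩ := this
    rw [he] at m1
    have h := J.sub_mem m1 (J.mul_mem_left e m3)
    convert h using 1
    ring
  -- the quotient ideal
  set I : Ideal P := Submodule.comap (LinearMap.mulLeft P (u 0)) J with hI
  have memI : ∀ y, y ∈ I ↔ u 0 * y ∈ J := fun y => Iff.rfl
  have i0 : 2 - vb ∈ I := (memI _).mpr m0
  have i1 : va - vb ^ γ ∈ I := by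
    rw [memI]
    have h1 : u 0 * ((va - vb ^ γ) * (vb - 1)) ∈ J := by
      have := J.sub_mem m4 (J.mul_mem_left ((2 - χ 3) * (vb - 1)) hpJ)
      convert this using 1
      ring
    have h2 := J.add_mem h1 (J.mul_mem_left (va - vb ^ γ) m0)
    convert h2 using 1
    ring
  have i2 : vc - vb ^ δ ∈ I := by
    rw [memI]
    have h1 : u 0 * ((vc - vb ^ δ) * (vb - 1)) ∈ J := by
      have := J.sub_mem m5 (J.mul_mem_left ((2 - χ 3) * (2 - χ 4) * (vb - 1)) hpJ)
      convert this using 1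
      ring
    have h2 := J.add_mem h1 (J.mul_mem_left (vc - vb ^ δ) m0)
    convert h2 using 1
    ring
  have i3 : vb ^ (5 * β + 2) - 1 ∈ I := by
    rw [memI]
    have h2 := J.add_mem m6 (J.mul_mem_left (vb ^ (5 * β + 2) - vc) m0)
    convert h2 using 1
    ring
  have i4 : p ∈ I := (memI _).mpr (J.mul_mem_left _ hpJ)
  have i5 : u 2 + u 0 * (1 - χ 6) ∈ I := (memI _).mpr (J.mul_mem_left _ m2)
  have hb : vb - ((2 : ℤ) : P) ∈ I := by
    have := I.neg_mem i0
    convert this using 1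
    push_cast
    ring
  have hbp : ∀ n : ℕ, vb ^ n - (((2 : ℤ) ^ n : ℤ) : P) ∈ I := by
    intro n
    have h := sub_dvd_pow_sub_pow vb (((2 : ℤ)) : P) n
    push_cast
    push_cast at hb h
    exact I.mem_of_dvd h hb
  have ha : va - (((2 : ℤ) ^ γ : ℤ) : P) ∈ I := by
    have := I.add_mem i1 (hbp γ)
    convert this using 1
    ring
  have hc : vc - (((2 : ℤ) ^ δ : ℤ) : P) ∈ I := by
    have := I.add_mem i2 (hbp δ)
    convert this using 1
    ring
  have hcong := hev I ha hc hb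
  have j1 : (((2 : ℤ) ^ (5 * β + 2) - 1 : ℤ) : P) ∈ I := by
    have := I.sub_mem i3 (hbp (5 * β + 2))
    convert this using 1
    push_cast
    ring
  have j2 : ((D : ℤ) : P) ∈ I := by
    rcases hD with hD | ⟨h0, hD⟩
    · have := I.sub_mem i5 (hcong (u 2 + u 0 * (1 - χ 6)))
      convert this using 1
      rw [hD, c6]
      simp only [map_add, map_mul, map_sub, map_one, map_pow, evb]
      push_cast
      ring
    · have := I.sub_mem i4 (hcong p)
      convert this using 1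
      rw [hD, hp]
      simp only [map_add, map_mul, h0]
      push_cast
      ring
  have hone : (1 : P) ∈ I := by
    obtain ⟨x, y, hxy⟩ := hβ
    have h := I.add_mem (I.mul_mem_left (x : P) j2) (I.mul_mem_left (y : P) j1)
    convert h using 1
    have := congrArg (fun t : ℤ => (t : P)) hxy
    push_cast at this ⊢
    exact this.symm
  have := (memI 1).mp hone
  simpa using this

end Core

end Pool.Agent.VC
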