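import Pool.Agent.Lib.MP_f50e59_al.Module

/-!
# Every element of the subgroup is fixed by a homomorphism into the subgroup
-/

set_option autoImplicit false

open Polynomial

namespace Pool.Agent.VC

section CommWords

lemma T_comm {A : Type*} [CommGroup A] (y g : A) : T y g = g := by
  unfold T
  rw [mul_comm g y, mul_assoc y g, mul_inv_cancel, mul_one, mul_inv_cancel, one_mul]

lemma kap_comm {A : Type*} [CommGroup A] (y g : A) : kap y g = 1 := by
  unfold kap
  rw [mul_comm y g, mul_assoc g y, mul_inv_cancel, mul_one, mul_inv_cancel]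

lemma H2_comm {A : Type*} [CommGroup A] (x : Fin 7 → A) : H2 x = x 1 := by
  simp [H2, T_comm]

lemma H1_comm {A : Type*} [CommGroup A] (x : Fin 7 → A) : H1 x = x 0 := by
  simp [H1, T_comm, kap_comm]

lemma T_pow {A : Type*} [Group A] (g : A) (n : ℕ) : T (g ^ n) g = g := by
  unfold T
  have h : g * g ^ n * g⁻¹ = g ^ n := by
    rw [← pow_succ', pow_succ, mul_inv_cancel_right]
  rw [h, mul_inv_cancel, one_mul]

end CommWords

section Lin

variable {R M : Type*} [CommRing R] [AddCommGroup M] [Module R M]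

lemma F2_smul_const (χ : Fin 7 → R) (r : Fin 7 → R) (m : M) :
    F2 χ (fun j => r j • m) = F2 χ r • m := by
  simp only [F2, smul_eq_mul]
  module

lemma F1_smul_const (χ : Fin 7 → R) (r : Fin 7 → R) (m : M) :
    F1 χ (fun j => r j • m) = F1 χ r • m := by
  simp only [F1, F2, smul_eq_mul]
  module

lemma map_F2 {P : Type*} [CommRing P] (f : P →+* R) (χ r : Fin 7 → P) :
    f (F2 χ r) = F2 (fun j => f (χ j)) (fun j => f (r j)) := by
  have h2 : f 2 = 2 := map_ofNat f 2
  simp [F2, h2]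

lemma map_F1 {P : Type*} [CommRing P] (f : P →+* R) (χ r : Fin 7 → P) :
    f (F1 χ r) = F1 (fun j => f (χ j)) (fun j => f (r j)) := by
  have h2 : f 2 = 2 := map_ofNat f 2
  simp [F1, F2, h2]

lemma stab_poly {A : Type*} [CommRing A] (f : A[X] →+* R) (N : AddSubgroup M)
    (hC : ∀ a, ∀ m ∈ N, f (C a) • m ∈ N) (hX : ∀ m ∈ N, f X • m ∈ N) (F : A[X]) :
    ∀ m ∈ N, f F • m ∈ N := by
  induction F using Polynomial.induction_on with
  | C a => exact hC a
  | add p q hp hq =>
    intro m hm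
    rw [map_add, add_smul]
    exact N.add_mem (hp m hm) (hq m hm)
  | monomial n a h =>
    intro m hm
    rw [pow_succ, ← mul_assoc, map_mul, mul_smul]
    exact h _ (hX m hm)

lemma stab_PP (f : PP →+* R) (N : AddSubgroup M) (ha : ∀ m ∈ N, f pa • m ∈ N)
    (hc : ∀ m ∈ N, f pc • m ∈ N) (hb : ∀ m ∈ N, f pb • m ∈ N) (F : PP) :
    ∀ m ∈ N, f F • m ∈ N := by
  have h := stab_poly (f.comp toP.symm.toRingHom) N ?_ hb (toP F)
  · intro m hm
    have := h m hm
    simpa using this
  · intro a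
    refine stab_poly ((f.comp toP.symm.toRingHom).comp C) N ?_ hc a
    intro a
    refine stab_poly (((f.comp toP.symm.toRingHom).comp C).comp C) N ?_ ha a
    intro n m hm
    have : ((((f.comp toP.symm.toRingHom).comp C).comp C).comp C) n = (n : R) := by simp
    simp only [RingHom.comp_apply] at this ⊢
    rw [this, Int.cast_smul_eq_zsmul]
    exact N.zsmul_mem hm n

/-- evaluation of polynomials -/
noncomputable def evR (a b c : R) : PP →+* R :=
  (eval₂RingHom (eval₂RingHom (eval₂RingHom (Int.castRingHom R) a) c) b).comp toP.toRingHom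

@[simp] lemma evR_pa (a b c : R) : evR a b c pa = a := by simp [evR, pa]
@[simp] lemma evR_pc (a b c : R) : evR a b c pc = c := by simp [evR, pc]
@[simp] lemma evR_pb (a b c : R) : evR a b c pb = b := by simp [evR, pb]

/-- elements which become polynomials after multiplication by a monomial -/
def Lau (a b c : Rˣ) (r : R) : Prop :=
  ∃ (N : ℕ) (V : PP), ((a * b * c : Rˣ) : R) ^ N * r = evR (a : R) b c V

lemma Lau.add {a b c : Rˣ} {r s : R} (hr : Lau a b c r) (hs : Lau a b c s) :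
    Lau a b c (r + s) := by
  obtain ⟨N, V, h⟩ := hr
  obtain ⟨N', V', h'⟩ := hs
  refine ⟨N + N', (pa * pb * pc) ^ N' * V + (pa * pb * pc) ^ N * V', ?_⟩
  simp only [map_add, map_mul, map_pow, evR_pa, evR_pb, evR_pc, ← h, ← h', Units.val_mul, pow_add]
  ring

lemma Lau.mul {a b c : Rˣ} {r s : R} (hr : Lau a b c r) (hs : Lau a b c s) :
    Lau a b c (r * s) := by
  obtain ⟨N, V, h⟩ := hr
  obtain ⟨N', V', h'⟩ := hs
  refine ⟨N + N', V * V', ?_⟩
  simp only [map_mul, ← h, ← h', pow_add]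
  ring

lemma Lau.ev {a b c : Rˣ} (V : PP) : Lau a b c (evR (a : R) b c V) := ⟨0, V, by simp⟩

lemma Lau.zero {a b c : Rˣ} : Lau a b c (0 : R) := by
  simpa using (Lau.ev (R := R) (a := a) (b := b) (c := c) 0)

lemma Lau.one {a b c : Rˣ} : Lau a b c (1 : R) := by
  simpa using (Lau.ev (R := R) (a := a) (b := b) (c := c) 1)

lemma Lau.neg {a b c : Rˣ} {r : R} (hr : Lau a b c r) : Lau a b c (-r) := by
  obtain ⟨N, V, h⟩ := hr
  exact ⟨N, -V, by rw [map_neg, ← h]; ring⟩

lemma lau_gen (a b c : Rˣ) (k : Fin 3) : Lau a b c ((![a, b, c] k : Rˣ) : R) := by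
  fin_cases k
  · simpa using (Lau.ev (R := R) (a := a) (b := b) (c := c) pa)
  · simpa using (Lau.ev (R := R) (a := a) (b := b) (c := c) pb)
  · simpa using (Lau.ev (R := R) (a := a) (b := b) (c := c) pc)

lemma lau_gen_inv (a b c : Rˣ) (k : Fin 3) : Lau a b c (((![a, b, c] k)⁻¹ : Rˣ) : R) := by
  fin_cases k
  · refine ⟨1, pb * pc, ?_⟩
    simp only [pow_one, map_mul, evR_pb, evR_pc]
    rw [← Units.val_mul, ← Units.val_mul]
    congr 1
    simp only [Fin.mk_zero, Matrix.cons_val_zero]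
    rw [mul_comm, mul_assoc a, inv_mul_cancel_left]
  · refine ⟨1, pa * pc, ?_⟩
    simp only [pow_one, map_mul, evR_pa, evR_pc]
    rw [← Units.val_mul, ← Units.val_mul]
    congr 1
    simp only [Fin.mk_one, Matrix.cons_val_one, Matrix.cons_val_zero]
    rw [mul_comm, mul_comm a b, mul_assoc b, inv_mul_cancel_left]
  · refine ⟨1, pa * pb, ?_⟩
    simp only [pow_one, map_mul, evR_pa, evR_pb]
    rw [← Units.val_mul, ← Units.val_mul]
    congr 1
    simp

lemma lau_fox (a b c : Rˣ) (w : FreeGroup (Fin 3)) :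
    (∀ k, Lau a b c ((fox ![a, b, c] w).v k)) ∧ Lau a b c (((fox ![a, b, c] w).c : Rˣ) : R) := by
  induction w using FreeGroup.induction_on with
  | C1 =>
    refine ⟨fun k => ?_, ?_⟩
    · simpa using Lau.zero
    · simpa using Lau.one
  | of j =>
    refine ⟨fun k => ?_, ?_⟩
    · simp only [fox, FreeGroup.lift_apply_of, Pi.single_apply]
      split_ifs
      · exact Lau.one
      · exact Lau.zero
    · simpa only [fox, FreeGroup.lift_apply_of] using lau_gen a b c j
  | inv_of j _ =>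
    refine ⟨fun k => ?_, ?_⟩
    · simp only [map_inv, fox, FreeGroup.lift_apply_of, Aff.inv_v, Pi.neg_apply, Pi.smul_apply,
        smul_eq_mul]
      apply Lau.neg
      apply Lau.mul (lau_gen_inv a b c j)
      rw [Pi.single_apply]
      split_ifs
      · exact Lau.one
      · exact Lau.zero
    · simpa only [map_inv, fox, FreeGroup.lift_apply_of, Aff.inv_c] using lau_gen_inv a b c j
  | mul x y hx hy =>
    obtain ⟨h1, h2⟩ := hx
    obtain ⟨h3, h4⟩ := hy
    refine ⟨fun k => ?_, ?_⟩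
    · simp only [map_mul, Aff.mul_v, Pi.add_apply, Pi.smul_apply, smul_eq_mul]
      exact (h1 k).add (h2.mul (h3 k))
    · simp only [map_mul, Aff.mul_c, Units.val_mul]
      exact h2.mul h4

/-- The key identity for Fox derivatives. -/
lemma fox_main (a b c : Rˣ) (w : FreeGroup (Fin 3)) :
    ∃ (β γ δ σ : ℕ) (z : Fin 7 → PP),
      (fox ![a, b, c] w).v 0 *
        F1 (chi (a : R) (b : R) (c : R) β γ δ σ) (fun j => evR (a : R) b c (z j)) +
      (fox ![a, b, c] w).v 1 *
        F2 (chi (a : R) (b : R) (c : R) β γ δ σ) (fun j => evR (a : R) b c (z j)) +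
      (fox ![a, b, c] w).v 2 * evR (a : R) b c (z 2) = (fox ![a, b, c] w).v 0 := by
  obtain ⟨hl, -⟩ := lau_fox a b c w
  choose N V hV using hl
  set m : Rˣ := a * b * c with hm
  set M : ℕ := N 0 + N 1 + N 2 with hM
  have hx : ∀ k, ∃ U : PP, (m : R) ^ M * (fox ![a, b, c] w).v k = evR (a : R) b c U := by
    intro k
    have hk : ∃ L, M = L + N k := by
      fin_cases k
      · exact ⟨N 1 + N 2, by simp [hM]; ring⟩
      · exact ⟨N 0 + N 2, by simp [hM]; ring⟩
      · exact ⟨N 0 + N 1, by simp [hM]⟩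
    obtain ⟨L, hL⟩ := hk
    refine ⟨(pa * pb * pc) ^ L * V k, ?_⟩
    rw [hL, pow_add, mul_assoc, hV k]
    simp [hm]
  choose U hU using hx
  obtain ⟨β, γ, δ, σ, z, hz⟩ := poly_main U
  refine ⟨β, γ, δ, σ, z, ?_⟩
  have h := congrArg (evR (a : R) (b : R) (c : R)) hz
  rw [map_add, map_add, map_mul, map_mul, map_mul, map_F1, map_F2, ← hU 0, ← hU 1, ← hU 2] at h
  have hchi : (fun j => evR (a : R) (b : R) (c : R) (chi pa pb pc β γ δ σ j)) =
      chi (a : R) (b : R) (c : R) β γ δ σ := by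
    funext j
    fin_cases j <;> simp [chi]
  rw [hchi] at h
  have hu : IsUnit ((m : R) ^ M) := (Units.isUnit m).pow M
  apply hu.mul_left_cancel
  linear_combination h

end Lin

/-- Main theorem of this file. -/
theorem fixed {G : Type} [Group G] [Metab G] (x : Fin 7 → G) (w : FreeGroup (Fin 3)) :
    ∃ y : Fin 7 → G, (∀ j, y j ∈ (FreeGroup.lift (gens x)).range) ∧
      FreeGroup.lift (gens y) w = FreeGroup.lift (gens x) w := by
  set K := (FreeGroup.lift (gens x)).range with hK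
  set h : Fin 3 → G := gens x with hh
  have hhK : ∀ k, h k ∈ K := fun k => ⟨FreeGroup.of k, FreeGroup.lift_apply_of⟩
  set S := setup G with hS
  obtain ⟨β, γ, δ, σ, z, hz⟩ := fox_main (S.χ (h 0)) (S.χ (h 1)) (S.χ (h 2)) w
  -- the base homomorphism
  set y0 : Fin 7 → G := ![h 0, h 1, h 2, h 1 ^ β, h 1 ^ γ, h 1 ^ δ, h 1 ^ σ] with hy0
  have hy0K : ∀ j, y0 j ∈ K := by
    intro j
    fin_cases j
    · exact hhK 0
    · exact hhK 1
    · exact hhK 2
    · exact K.pow_mem (hhK 1) _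
    · exact K.pow_mem (hhK 1) _
    · exact K.pow_mem (hhK 1) _
    · exact K.pow_mem (hhK 1) _
  have hH2 : H2 y0 = h 1 := by
    have e : H2 y0 = T (h 1 ^ β) (T (h 1 ^ γ) (T (h 1 ^ δ) (h 1))) := rfl
    rw [e, T_pow, T_pow, T_pow]
  have hH1K : H1 y0 ∈ K := by
    have : H1 y0 = K.subtype (H1 (fun j => (⟨y0 j, hy0K j⟩ : K))) := by
      rw [map_H1]
      rfl
    rw [this]
    exact Subtype.property _
  have hcomm : H1 y0 * (h 0)⁻¹ ∈ commutator G := by
    have : Abelianization.of (H1 y0 * (h 0)⁻¹) = 1 := by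
      rw [map_mul, map_H1, H1_comm, map_inv]
      exact mul_inv_cancel _
    exact (QuotientGroup.eq_one_iff _).mp this
  obtain ⟨e, he⟩ : ∃ e : MM G, S.i e = H1 y0 * (h 0)⁻¹ :=
    ⟨Additive.ofMul ⟨H1 y0 * (h 0)⁻¹, hcomm⟩, rfl⟩
  have hH1 : H1 y0 = S.i e * h 0 := by rw [he]; group
  set π := evR ((S.χ (h 0) : (RR G)ˣ) : RR G) (S.χ (h 1) : (RR G)ˣ) (S.χ (h 2) : (RR G)ˣ) with hπ
  set zz : Fin 7 → MM G := fun j => π (z j) • (-e) with hzz
  -- the subgroup of `MM G` of elements in `K`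
  let NK : AddSubgroup (MM G) :=
    { carrier := {m | S.i m ∈ K}
      add_mem' := by
        intro a b ha hb
        change S.i (a + b) ∈ K
        rw [S.i_add]
        exact K.mul_mem ha hb
      zero_mem' := by
        change S.i 0 ∈ K
        rw [S.i_zero]
        exact K.one_mem
      neg_mem' := by
        intro a ha
        change S.i (-a) ∈ K
        rw [S.i_neg]
        exact K.inv_mem ha }
  have hNK : ∀ m, m ∈ NK ↔ S.i m ∈ K := fun m => Iff.rfl
  have hstab : ∀ k, ∀ m ∈ NK, ((S.χ (h k) : (RR G)ˣ) : RR G) • m ∈ NK := by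
    intro k m hm
    rw [hNK] at hm ⊢
    have := S.conj (h k) m
    unfold Setup.i at hm ⊢
    rw [← this]
    exact K.mul_mem (K.mul_mem (hhK k) hm) (K.inv_mem (hhK k))
  have heNK : e ∈ NK := by
    rw [hNK, he]
    exact K.mul_mem hH1K (K.inv_mem (hhK 0))
  have hzK : ∀ j, S.i (zz j) ∈ K := by
    intro j
    rw [← hNK]
    refine stab_PP π NK ?_ ?_ ?_ (z j) (-e) (NK.neg_mem heNK)
    · rw [hπ, evR_pa]
      exact hstab 0
    · rw [hπ, evR_pc]
      exact hstab 2
    · rw [hπ, evR_pb]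
      exact hstab 1
  set y : Fin 7 → G := fun j => S.i (zz j) * y0 j with hy
  refine ⟨y, fun j => K.mul_mem (hzK j) (hy0K j), ?_⟩
  -- values of the characters
  have hχ : (fun j => ((S.χ (y0 j) : (RR G)ˣ) : RR G)) =
      chi ((S.χ (h 0) : (RR G)ˣ) : RR G) (S.χ (h 1) : (RR G)ˣ) (S.χ (h 2) : (RR G)ˣ) β γ δ σ := by
    funext j
    fin_cases j
    · rfl
    · rfl
    · rfl
    · change ((S.χ (h 1 ^ β) : (RR G)ˣ) : RR G) = _
      rw [map_pow]
      rfl
    · change ((S.χ (h 1 ^ γ) : (RR G)ˣ) : RR G) = _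
      rw [map_pow]
      rfl
    · change ((S.χ (h 1 ^ δ) : (RR G)ˣ) : RR G) = _
      rw [map_pow]
      rfl
    · change ((S.χ (h 1 ^ σ) : (RR G)ˣ) : RR G) = _
      rw [map_pow]
      rfl
  set X := chi ((S.χ (h 0) : (RR G)ˣ) : RR G) (S.χ (h 1) : (RR G)ˣ) (S.χ (h 2) : (RR G)ˣ) β γ δ σ
    with hX
  have hA : H1 y = S.i (F1 X zz + e) * h 0 := by
    have h1 := (S.perturb y0 zz (H1 FreeGroup.of)).1
    rw [map_H1, map_H1, map_H1] at h1
    simp only [FreeGroup.lift_apply_of] at h1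
    rw [H1_v, hH1] at h1
    simp only at h1
    rw [hχ] at h1
    rw [S.i_add, mul_assoc]
    exact h1
  have hB : H2 y = S.i (F2 X zz) * h 1 := by
    have h1 := (S.perturb y0 zz (H2 FreeGroup.of)).1
    rw [map_H2, map_H2, map_H2] at h1
    simp only [FreeGroup.lift_apply_of] at h1
    rw [H2_v, hH2] at h1
    simp only at h1
    rw [hχ] at h1
    exact h1
  have hgens : gens y = fun k => S.i ((![F1 X zz + e, F2 X zz, zz 2] : Fin 3 → MM G) k) * h k := by
    funext k
    fin_cases k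
    · exact hA
    · exact hB
    · rfl
  rw [hgens, (S.perturb h _ w).1, lift_eq_fox]
  have hvec : (fun k => S.χ (h k)) = ![S.χ (h 0), S.χ (h 1), S.χ (h 2)] := by
    funext k
    fin_cases k <;> rfl
  rw [hvec]
  have hsum : ∑ k, (fox ![S.χ (h 0), S.χ (h 1), S.χ (h 2)] w).v k •
      (![F1 X zz + e, F2 X zz, zz 2] : Fin 3 → MM G) k = 0 := by
    rw [Fin.sum_univ_three]
    simp only [Matrix.cons_val_zero, Matrix.cons_val_one, Matrix.cons_val]
    rw [hzz, F1_smul_const, F2_smul_const]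
    have hz' := congrArg (fun r => r • e) hz
    simp only [add_smul, mul_smul] at hz'
    simp only [smul_neg, smul_add]
    rw [← hz']
    abel
  simp only
  rw [hsum, S.i_zero, one_mul]

end Pool.Agent.VC
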