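import Pool.Agent.Lib.MP_f50e59_al.Closed

/-!
# The subgroup is verbally closed but not a retract
-/

set_option autoImplicit false

namespace Pool.Agent.VC

/-- The free metabelian group of rank 7. -/
abbrev SS : Type := FreeGroup (Fin 7) ⧸ derivedSeries (FreeGroup (Fin 7)) 2

/-- the projection -/
def pr : FreeGroup (Fin 7) →* SS := QuotientGroup.mk' _

/-- the generators -/
def xx : Fin 7 → SS := fun j => pr (FreeGroup.of j)

lemma derived_SS : derivedSeries SS 2 = ⊥ := by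
  have h := map_derivedSeries_eq (f := pr) (QuotientGroup.mk'_surjective _) 2
  rw [← h, eq_bot_iff]
  rintro _ ⟨g, hg, rfl⟩
  rw [Subgroup.mem_bot]
  exact (QuotientGroup.eq_one_iff g).mpr hg

instance : Metab SS where
  comm a b ha hb := by
    have h := Subgroup.commutator_mem_commutator ha hb
    have h' : commutator SS = derivedSeries SS 1 := (derivedSeries_one SS).symm
    rw [h', ← derivedSeries_succ, derived_SS, Subgroup.mem_bot] at h
    exact commutatorElement_eq_one_iff_mul_comm.mp h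

/-- The subgroup. -/
def KK : Subgroup SS := (FreeGroup.lift (gens xx)).range

/-- Homomorphisms out of `SS`. -/
def homOf (y : Fin 7 → SS) : SS →* SS :=
  QuotientGroup.lift _ (FreeGroup.lift y) (by
    intro g hg
    rw [MonoidHom.mem_ker]
    have h := map_derivedSeries_le_derivedSeries (FreeGroup.lift y) 2
    have : FreeGroup.lift y g ∈ derivedSeries SS 2 := h (Subgroup.mem_map_of_mem _ hg)
    rw [derived_SS] at this
    exact Subgroup.mem_bot.mp this)

lemma homOf_pr (y : Fin 7 → SS) (g : FreeGroup (Fin 7)) :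
    homOf y (pr g) = FreeGroup.lift y g := rfl

lemma homOf_xx (y : Fin 7 → SS) (j : Fin 7) : homOf y (xx j) = y j := by
  unfold xx
  rw [homOf_pr, FreeGroup.lift_apply_of]

lemma map_gens {G G' : Type*} [Group G] [Group G'] (f : G →* G') (x : Fin 7 → G) (k : Fin 3) :
    f (gens x k) = gens (fun j => f (x j)) k := by
  fin_cases k
  · exact map_H1 f x
  · exact map_H2 f x
  · rfl

/-- exponent sums -/
def expo (k : Fin 3) : FreeGroup (Fin 3) →* Multiplicative ℤ :=
  FreeGroup.lift (fun i => if i = k then Multiplicative.ofAdd 1 else 1)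

/-- exponent sums as integers -/
def ex (k : Fin 3) (v : FreeGroup (Fin 3)) : ℤ := Multiplicative.toAdd (expo k v)

lemma lift_expo {A : Type*} [CommGroup A] (χ : Fin 3 → A) (v : FreeGroup (Fin 3)) :
    FreeGroup.lift χ v = χ 0 ^ ex 0 v * χ 1 ^ ex 1 v * χ 2 ^ ex 2 v := by
  unfold ex
  induction v using FreeGroup.induction_on with
  | C1 => simp
  | of j => fin_cases j <;> simp [expo]
  | inv_of j _ => fin_cases j <;> simp [expo]
  | mul a b ha hb =>
    rw [map_mul, ha, hb]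
    simp only [map_mul, toAdd_mul, zpow_add]
    rw [mul_mul_mul_comm, mul_mul_mul_comm (χ 0 ^ _)]

lemma gens_c {R M : Type*} [CommRing R] [AddCommGroup M] [Module R M] (X : Fin 7 → Aff R M)
    (k : Fin 3) : (gens X k).c = (![(X 0).c, (X 1).c, (X 2).c] : Fin 3 → Rˣ) k := by
  fin_cases k
  · change (H1 X).c = (X 0).c
    exact H1_c X
  · change (H2 X).c = (X 1).c
    exact H2_c X
  · rfl

lemma cHom_lift_gens {R M : Type*} [CommRing R] [AddCommGroup M] [Module R M]
    (X : Fin 7 → Aff R M) (w : FreeGroup (Fin 3)) :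
    (FreeGroup.lift (gens X) w).c =
      (X 0).c ^ ex 0 w * (X 1).c ^ ex 1 w * (X 2).c ^ ex 2 w := by
  have h3 : (Aff.cHom.comp (FreeGroup.lift (gens X))) =
      FreeGroup.lift (![(X 0).c, (X 1).c, (X 2).c] : Fin 3 → Rˣ) := by
    ext k
    rw [MonoidHom.comp_apply, FreeGroup.lift_apply_of, FreeGroup.lift_apply_of, Aff.cHom_apply,
      gens_c]
  rw [← Aff.cHom_apply, ← MonoidHom.comp_apply, h3, lift_expo]
  rfl

lemma map_lift_gens {G G' : Type*} [Group G] [Group G'] (f : G →* G') (x : Fin 7 → G)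
    (w : FreeGroup (Fin 3)) :
    f (FreeGroup.lift (gens x) w) = FreeGroup.lift (gens (fun j => f (x j))) w := by
  have h : f.comp (FreeGroup.lift (gens x)) = FreeGroup.lift (gens (fun j => f (x j))) := by
    ext k
    rw [MonoidHom.comp_apply, FreeGroup.lift_apply_of, FreeGroup.lift_apply_of, map_gens]
  exact congrArg (fun k => k w) h

lemma exists_hom (h : SS) (hh : h ∈ KK) :
    ∃ ρ : SS →* SS, (∀ g, ρ g ∈ KK) ∧ ρ h = h := by
  obtain ⟨w, rfl⟩ := hh
  obtain ⟨y, hy, hyw⟩ := fixed xx w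
  refine ⟨homOf y, ?_, ?_⟩
  · intro g
    obtain ⟨g, rfl⟩ := QuotientGroup.mk'_surjective _ g
    change homOf y (pr g) ∈ KK
    rw [homOf_pr]
    induction g using FreeGroup.induction_on with
    | C1 => rw [map_one]; exact KK.one_mem
    | of j => rw [FreeGroup.lift_apply_of]; exact hy j
    | inv_of j hj => rw [map_inv]; exact KK.inv_mem hj
    | mul a b ha hb => rw [map_mul]; exact KK.mul_mem ha hb
  · rw [map_lift_gens]
    have : (fun j => homOf y (xx j)) = y := by
      funext j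
      exact homOf_xx y j
    rw [this, hyw]

/-- `KK` is verbally closed. -/
theorem verbally_closed (n : ℕ) (w : FreeGroup (Fin n)) (h : SS) (hh : h ∈ KK)
    (hx : ∃ x : Fin n → SS, FreeGroup.lift x w = h) :
    ∃ x : Fin n → SS, (∀ i, x i ∈ KK) ∧ FreeGroup.lift x w = h := by
  obtain ⟨x, hx⟩ := hx
  obtain ⟨ρ, h1, h2⟩ := exists_hom h hh
  refine ⟨fun i => ρ (x i), fun i => h1 _, ?_⟩
  have : ρ.comp (FreeGroup.lift x) = FreeGroup.lift (fun i => ρ (x i)) := by
    ext i
    simp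
  rw [← this, MonoidHom.comp_apply, hx, h2]

/-! ### No retraction -/

section Retract

variable (f : SS →* SS) (hf : ∀ g, f g ∈ KK) (hf2 : ∀ h ∈ KK, f h = h)

include hf hf2

/-- Comparison of affine representations. -/
lemma compare : ∃ v : Fin 7 → FreeGroup (Fin 3),
    ∀ (Q : Type) [CommRing Q] (χ : Fin 7 → Qˣ) (z : Fin 7 → Q),
    ∃ (χ' : Fin 7 → Qˣ) (z' : Fin 7 → Q),
      (∀ j, χ' j = χ 0 ^ ex 0 (v j) * χ 1 ^ ex 1 (v j) * χ 2 ^ ex 2 (v j)) ∧
      χ' 0 = χ 0 ∧ χ' 1 = χ 1 ∧ χ' 2 = χ 2 ∧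
      F1 (fun j => (χ' j : Q)) z' = F1 (fun j => (χ j : Q)) z ∧
      F2 (fun j => (χ' j : Q)) z' = F2 (fun j => (χ j : Q)) z ∧ z' 2 = z 2 := by
  have hv : ∀ j, ∃ v : FreeGroup (Fin 3), FreeGroup.lift (gens xx) v = f (xx j) :=
    fun j => hf (xx j)
  choose v hv using hv
  refine ⟨v, ?_⟩
  intro Q _ χ z
  set Ψ : FreeGroup (Fin 7) →* Aff Q Q := FreeGroup.lift (fun j => ⟨z j, χ j⟩) with hΨ
  set V : Fin 7 → FreeGroup (Fin 7) := fun j => FreeGroup.lift (gens FreeGroup.of) (v j) with hV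
  have hprV : ∀ j, pr (V j) = f (xx j) := by
    intro j
    rw [hV, ← hv j]
    simp only
    rw [map_lift_gens]
    rfl
  have hcomp : pr.comp (FreeGroup.lift V) = f.comp pr := by
    ext j
    rw [MonoidHom.comp_apply, FreeGroup.lift_apply_of, hprV]
    rfl
  have hgK : ∀ k, gens xx k ∈ KK := fun k => ⟨FreeGroup.of k, FreeGroup.lift_apply_of⟩
  have hprg : ∀ k, pr (gens FreeGroup.of k) = gens xx k := fun k => map_gens pr _ k
  have key : ∀ k, Ψ (FreeGroup.lift V (gens FreeGroup.of k)) = Ψ (gens FreeGroup.of k) := by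
    intro k
    have h1 : pr (FreeGroup.lift V (gens FreeGroup.of k)) = pr (gens FreeGroup.of k) := by
      have := congrArg (fun t => t (gens FreeGroup.of k)) hcomp
      simp only [MonoidHom.comp_apply] at this
      rw [this, hprg, hf2 _ (hgK k)]
    have h2 : (FreeGroup.lift V (gens FreeGroup.of k))⁻¹ * gens FreeGroup.of k ∈
        derivedSeries (FreeGroup (Fin 7)) 2 := QuotientGroup.eq.mp h1
    have h3 := Aff.map_derived Ψ h2
    rw [map_mul, map_inv] at h3
    exact (inv_mul_eq_one.mp h3)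
  set Y : Fin 7 → Aff Q Q := fun j => Ψ (V j) with hY
  have hXX : (fun j => Ψ (FreeGroup.of j)) = fun j => (⟨z j, χ j⟩ : Aff Q Q) := by
    funext j
    rw [hΨ, FreeGroup.lift_apply_of]
  have key2 : ∀ k, gens Y k = gens (fun j => (⟨z j, χ j⟩ : Aff Q Q)) k := by
    intro k
    have h := key k
    rw [map_gens, map_gens, map_gens, hXX] at h
    rw [← h, hY]
    simp only [FreeGroup.lift_apply_of]
  have k0 : H1 Y = H1 (fun j => (⟨z j, χ j⟩ : Aff Q Q)) := key2 0
  have k1 : H2 Y = H2 (fun j => (⟨z j, χ j⟩ : Aff Q Q)) := key2 1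
  have k2 : Y 2 = ⟨z 2, χ 2⟩ := key2 2
  refine ⟨fun j => (Y j).c, fun j => (Y j).v, ?_, ?_, ?_, ?_, ?_, ?_, ?_⟩
  · intro j
    have h1 : Y j = FreeGroup.lift (gens (fun j => (⟨z j, χ j⟩ : Aff Q Q))) (v j) := by
      rw [hY]
      simp only [hV]
      rw [map_lift_gens, hXX]
    change (Y j).c = _
    rw [h1, cHom_lift_gens]
  · have := congrArg Aff.c k0
    rwa [H1_c, H1_c] at this
  · have := congrArg Aff.c k1
    rwa [H2_c, H2_c] at this
  · exact congrArg Aff.c k2
  · have := congrArg Aff.v k0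
    rwa [H1_v, H1_v] at this
  · have := congrArg Aff.v k1
    rwa [H2_v, H2_v] at this
  · exact congrArg Aff.v k2

theorem no_retract : False := by
  obtain ⟨v, hv⟩ := compare f hf hf2
  -- Case A
  have caseA : ∀ j : Fin 7, (j = 3 ∨ j = 4 ∨ j = 5) → ∀ k : Fin 3, (k = 0 ∨ k = 2) →
      ex k (v j) = 0 := by
    intro j hj k hk
    by_contra hne
    set n := ex k (v j) with hn
    set a := n.natAbs with ha
    have ha1 : 1 ≤ a := Int.natAbs_pos.mpr hne
    set N := 5 ^ a - 2 with hN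
    have h5 : 5 ≤ 5 ^ a := by
      calc 5 = 5 ^ 1 := by norm_num
        _ ≤ 5 ^ a := Nat.pow_le_pow_right (by norm_num) ha1
    have hN3 : 3 ≤ N := by omega
    have hcop : Nat.Coprime 5 N := by
      rw [Nat.Prime.coprime_iff_not_dvd (by norm_num)]
      intro hd
      have h2 : 5 ∣ 5 ^ a := dvd_pow_self 5 (by omega)
      have : 5 ∣ 2 := by
        have h3 := (Nat.dvd_sub h2 hd)
        have h4 : 5 ^ a - N = 2 := by omega
        rwa [h4] at h3
      omega
    have : Fact (1 < N) := ⟨by omega⟩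
    let t : (ZMod N)ˣ := ZMod.unitOfCoprime 5 hcop
    have ht : (t : ZMod N) = 5 := by simp [t]
    have hta : ((t ^ a : (ZMod N)ˣ) : ZMod N) = 2 := by
      rw [Units.val_pow_eq_pow_val, ht]
      have : ((5 ^ a - 2 : ℕ) : ZMod N) = 0 := ZMod.natCast_self N
      rw [Nat.cast_sub (by omega)] at this
      push_cast at this
      linear_combination this
    obtain ⟨s, hs⟩ : ∃ s : (ZMod N)ˣ, s ^ n = t ^ a := by
      rcases Int.natAbs_eq n with h | h
      · refine ⟨t, ?_⟩
        rw [h, zpow_natCast]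
      · refine ⟨t⁻¹, ?_⟩
        rw [h, zpow_neg, inv_zpow, inv_inv, zpow_natCast]
    obtain ⟨χ', z', h1, -, h2, -, -, h3, -⟩ := hv (ZMod N)
      (fun i => if (i : ℕ) = (k : ℕ) then s else 1) (Pi.single 1 1)
    have e1 : χ' 1 = 1 := by
      rw [h2]
      rcases hk with rfl | rfl <;> simp
    have e2 : χ' j = t ^ a := by
      rw [h1 j, ← hs, hn]
      rcases hk with rfl | rfl <;> simp
    have e3 : (χ' j : ZMod N) = 2 := by rw [e2, hta]
    have e4 : F2 (fun i => (χ' i : ZMod N)) z' = 0 := by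
      simp only [F2, e1, smul_eq_mul]
      rcases hj with rfl | rfl | rfl <;> rw [e3] <;> simp
    have e5 : F2 (fun i => (((if (i : ℕ) = (k : ℕ) then s else 1) : (ZMod N)ˣ) : ZMod N))
        (Pi.single (1 : Fin 7) (1 : ZMod N)) = 1 := by
      rcases hk with rfl | rfl <;> simp [F2] <;> norm_num
    have e6 : (0 : ZMod N) = 1 := by
      rw [← e4, h3]
      exact e5
    exact zero_ne_one e6
  -- Case B
  set β := ex 1 (v 3) with hβ
  set γ := ex 1 (v 4) with hγ
  set δ := ex 1 (v 5) with hδ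
  set n := (5 * β + 2).natAbs with hn
  have hn2 : 2 ≤ n := by omega
  set N := 2 ^ n - 1 with hN
  have h4 : 4 ≤ 2 ^ n := by
    calc 4 = 2 ^ 2 := by norm_num
      _ ≤ 2 ^ n := Nat.pow_le_pow_right (by norm_num) hn2
  have hcop : Nat.Coprime 2 N := by
    rw [Nat.Prime.coprime_iff_not_dvd (by norm_num)]
    intro hd
    have h2 : 2 ∣ 2 ^ n := dvd_pow_self 2 (by omega)
    omega
  let t : (ZMod N)ˣ := ZMod.unitOfCoprime 2 hcop
  have ht : (t : ZMod N) = 2 := by simp [t]
  have htn : t ^ n = 1 := by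
    apply Units.ext
    rw [Units.val_pow_eq_pow_val, ht, Units.val_one]
    have : ((2 ^ n - 1 : ℕ) : ZMod N) = 0 := ZMod.natCast_self N
    rw [Nat.cast_sub (by omega)] at this
    push_cast at this
    linear_combination this
  have htz : t ^ (5 * β + 2) = 1 := by
    rcases Int.natAbs_eq (5 * β + 2) with h | h
    · rw [h, zpow_natCast, ← hn, htn]
    · rw [h, zpow_neg, zpow_natCast, ← hn, htn, inv_one]
  obtain ⟨χ', z', h1, h20, h21, h22, h30, h31, h32⟩ := hv (ZMod N)
    ![t ^ γ, t, t ^ δ, -1, 1, 1, 1] (Pi.single 6 1)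
  have hc3 : χ' 3 = t ^ β := by
    rw [h1 3, caseA 3 (by simp) 0 (by simp), caseA 3 (by simp) 2 (by simp)]
    simp [hβ]
  have hc4 : χ' 4 = t ^ γ := by
    rw [h1 4, caseA 4 (by simp) 0 (by simp), caseA 4 (by simp) 2 (by simp)]
    simp [hγ]
  have hc5 : χ' 5 = t ^ δ := by
    rw [h1 5, caseA 5 (by simp) 0 (by simp), caseA 5 (by simp) 2 (by simp)]
    simp [hδ]
  have hc0 : χ' 0 = t ^ γ := by rw [h20]; rfl
  have hc1 : χ' 1 = t := by rw [h21]; rfl
  have hc2 : χ' 2 = t ^ δ := by rw [h22]; rfl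
  have r2 : F2 (fun j => (((![t ^ γ, t, t ^ δ, -1, 1, 1, 1] : Fin 7 → (ZMod N)ˣ) j : (ZMod N)ˣ) :
      ZMod N)) (Pi.single (6 : Fin 7) (1 : ZMod N)) = 0 := by
    simp [F2]
  have r2' : F2 (fun j => (χ' j : ZMod N)) z' = 0 := by rw [h31, r2]
  have rz : z' 2 = 0 := by rw [h32]; simp
  have r1 : F1 (fun j => (((![t ^ γ, t, t ^ δ, -1, 1, 1, 1] : Fin 7 → (ZMod N)ˣ) j : (ZMod N)ˣ) :
      ZMod N)) (Pi.single (6 : Fin 7) (1 : ZMod N)) = -5 := by
    simp only [F1, r2]
    simp [ht]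
    ring
  have hmul : (χ' 1 : ZMod N) ^ 2 * (χ' 3 : ZMod N) ^ 5 = 1 := by
    rw [hc1, hc3, ← Units.val_pow_eq_pow_val, ← Units.val_pow_eq_pow_val, ← Units.val_mul]
    have : t ^ 2 * (t ^ β) ^ 5 = 1 := by
      rw [← htz, zpow_add, mul_comm 5 β, zpow_mul, mul_comm]
      norm_cast
    rw [this, Units.val_one]
  have r1' : F1 (fun j => (χ' j : ZMod N)) z' = 0 := by
    simp only [F1, r2', rz, smul_eq_mul]
    rw [hmul, hc0, hc4, hc2, hc5, hc1, ht]
    ring
  rw [r1, r1'] at h30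
  have h5 : ((5 : ℕ) : ZMod N) = 0 := by
    push_cast
    linear_combination h30
  have hdvd : N ∣ 5 := (ZMod.natCast_eq_zero_iff 5 N).mp h5
  have hle : N ≤ 5 := Nat.le_of_dvd (by norm_num) hdvd
  have hn3 : n < 3 := by
    by_contra hcon
    have : 2 ^ 3 ≤ 2 ^ n := Nat.pow_le_pow_right (by norm_num) (by omega)
    omega
  have hn2' : n = 2 := by omega
  rw [hN, hn2'] at hdvd
  norm_num at hdvd

end Retract

end Pool.Agent.VC
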