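import Pool.Agent.Lib.MP_f50e59_al.Poly

/-!
# The module structure on the commutator subgroup of a metabelian group
-/

set_option autoImplicit false

namespace Pool.Agent.VC

variable (G : Type) [Group G]

/-- the commutator subgroup as an additive group -/
def MM : Type := Additive (commutator G)

/-- the commutativity of the commutator subgroup -/
class Metab : Prop where
  comm : ∀ a b : G, a ∈ commutator G → b ∈ commutator G → a * b = b * a

variable [Metab G]

instance : CommGroup (commutator G) :=
  { (inferInstance : Group (commutator G)) with
    mul_comm := fun a b => Subtype.ext (Metab.comm a.1 b.1 a.2 b.2) }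

instance : AddCommGroup (MM G) := inferInstanceAs (AddCommGroup (Additive (commutator G)))

/-- the group ring of the abelianization -/
abbrev RR : Type := MonoidAlgebra ℤ (Abelianization G)

/-- inclusion of the commutator subgroup -/
def inc : Multiplicative (MM G) →* G where
  toFun m := ((Additive.toMul (Multiplicative.toAdd m) : commutator G) : G)
  map_one' := rfl
  map_mul' _ _ := rfl

/-- conjugation as an additive endomorphism -/
def act : G →* AddMonoid.End (MM G) where
  toFun g := (MonoidHom.toAdditive (MulAut.conjNormal (H := commutator G) g).toMonoidHom)
  map_one' := by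
    refine DFunLike.ext _ _ (fun x => ?_)
    change (Additive.ofMul (MulAut.conjNormal (H := commutator G) (1 : G) (Additive.toMul x))) = x
    rw [map_one]
    rfl
  map_mul' g h := by
    refine DFunLike.ext _ _ (fun x => ?_)
    change (Additive.ofMul (MulAut.conjNormal (H := commutator G) (g * h) (Additive.toMul x))) = _
    rw [map_mul]
    rfl

lemma act_apply (g : G) (m : MM G) : inc G (Multiplicative.ofAdd (act G g m)) =
    g * inc G (Multiplicative.ofAdd m) * g⁻¹ := by
  exact MulAut.conjNormal_apply g _

lemma inc_injective : Function.Injective (inc G) := by
  intro a b h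
  exact Subtype.ext h

lemma act_ker : commutator G ≤ (act G).ker := by
  intro g hg
  rw [MonoidHom.mem_ker]
  ext m
  have h1 := act_apply G g m
  have h2 : g * inc G (Multiplicative.ofAdd m) * g⁻¹ = inc G (Multiplicative.ofAdd m) := by
    rw [Metab.comm g (inc G (Multiplicative.ofAdd m)) hg (Subtype.property _)]
    group
  rw [h2] at h1
  exact inc_injective G h1

/-- the action of the abelianization -/
def actAb : Abelianization G →* AddMonoid.End (MM G) :=
  QuotientGroup.lift (commutator G) (act G) (act_ker G)

/-- the action of the group ring -/
noncomputable def actR : RR G →ₐ[ℤ] AddMonoid.End (MM G) :=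
  MonoidAlgebra.lift ℤ (AddMonoid.End (MM G)) (Abelianization G) (actAb G)

noncomputable instance : Module (RR G) (MM G) := Module.compHom (MM G) (actR G).toRingHom

/-- the characters -/
noncomputable def chr : G →* (RR G)ˣ :=
  ((Units.map (MonoidAlgebra.of ℤ (Abelianization G))).comp
    (toUnits (G := Abelianization G)).toMonoidHom).comp Abelianization.of

lemma chr_smul (g : G) (m : MM G) : ((chr G g : (RR G)ˣ) : RR G) • m = act G g m := by
  change actR G ((chr G g : (RR G)ˣ) : RR G) m = act G g m
  have : ((chr G g : (RR G)ˣ) : RR G) = MonoidAlgebra.single (Abelianization.of g) 1 := rfl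
  rw [this]
  unfold actR
  rw [MonoidAlgebra.lift_single, one_smul]
  rfl

/-- the setup for the commutator subgroup -/
noncomputable def setup : Setup G (RR G) (MM G) where
  ι := inc G
  χ := chr G
  conj g m := by
    rw [chr_smul, act_apply]
  χι m := by
    have h : (inc G (Multiplicative.ofAdd m)) ∈ commutator G := Subtype.property _
    have : Abelianization.of (inc G (Multiplicative.ofAdd m)) = 1 :=
      (QuotientGroup.eq_one_iff _).mpr h
    unfold chr
    rw [MonoidHom.comp_apply, this, map_one]

end Pool.Agent.VC
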