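import Pool.Agent.Lib.MP_f50e59_al.Arith

/-!
# The polynomial ring `ℤ[a][c][b]`
-/

set_option autoImplicit false

open Polynomial

namespace Pool.Agent.VC

/-- `ℤ[a][c][b]` -/
abbrev P3 := Polynomial (Polynomial (Polynomial ℤ))

/-- An opaque copy of `ℤ[a][c][b]`. -/
def PP : Type := P3

noncomputable instance : CommRing PP := inferInstanceAs (CommRing P3)

/-- the identification -/
noncomputable def toP : PP ≃+* P3 := RingEquiv.refl P3

/-- the variable `a` -/
noncomputable def pa : PP := toP.symm (C (C X))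
/-- the variable `c` -/
noncomputable def pc : PP := toP.symm (C X)
/-- the variable `b` -/
noncomputable def pb : PP := toP.symm X

/-- evaluation at `a = x, c = y, b = w` -/
noncomputable def ev (x y w : ℤ) : PP →+* ℤ :=
  ((evalRingHom x).comp ((evalRingHom (C y)).comp (evalRingHom (C (C w))))).comp toP.toRingHom

lemma ev_apply (x y w : ℤ) (F : PP) :
    ev x y w F = (((toP F).eval (C (C w))).eval (C y)).eval x := rfl

@[simp] lemma ev_pa (x y w : ℤ) : ev x y w pa = x := by simp [ev_apply, pa]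
@[simp] lemma ev_pc (x y w : ℤ) : ev x y w pc = y := by simp [ev_apply, pc]
@[simp] lemma ev_pb (x y w : ℤ) : ev x y w pb = w := by simp [ev_apply, pb]

lemma hom_eq {B : Type*} [CommRing B] (f g : PP →+* B) (ha : f pa = g pa) (hc : f pc = g pc)
    (hb : f pb = g pb) : f = g := by
  have h : f.comp toP.symm.toRingHom = g.comp toP.symm.toRingHom := by
    apply Polynomial.ringHom_ext'
    · apply Polynomial.ringHom_ext'
      · apply Polynomial.ringHom_ext'
        · exact Subsingleton.elim _ _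
        · exact ha
      · exact hc
    · exact hb
  ext x
  have := congrArg (fun k => k (toP x)) h
  simpa using this

lemma congr_ev (I : Ideal PP) (x y w : ℤ)
    (ha : pa - ((x : ℤ) : PP) ∈ I) (hc : pc - ((y : ℤ) : PP) ∈ I)
    (hb : pb - ((w : ℤ) : PP) ∈ I) (F : PP) : F - ((ev x y w F : ℤ) : PP) ∈ I := by
  have key : (Ideal.Quotient.mk I) = ((Int.castRingHom (PP ⧸ I)).comp (ev x y w)) := by
    apply hom_eq
    · have h : (Ideal.Quotient.mk I) pa = (Ideal.Quotient.mk I) ((x : ℤ) : PP) :=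
        Ideal.Quotient.eq.mpr ha
      simp [h]
    · have h : (Ideal.Quotient.mk I) pc = (Ideal.Quotient.mk I) ((y : ℤ) : PP) :=
        Ideal.Quotient.eq.mpr hc
      simp [h]
    · have h : (Ideal.Quotient.mk I) pb = (Ideal.Quotient.mk I) ((w : ℤ) : PP) :=
        Ideal.Quotient.eq.mpr hb
      simp [h]
  have := congrArg (fun f => f F) key
  simp only [RingHom.comp_apply] at this
  rw [← Ideal.Quotient.eq, this]
  simp

lemma factor {A : Type*} [CommRing A] [IsDomain A] (r : A) :
    ∀ (N : ℕ) (f : Fin 3 → A[X]), (∑ i, (f i).natDegree ≤ N) → (∃ i, f i ≠ 0) →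
      ∃ (n : ℕ) (g : Fin 3 → A[X]), (∀ i, f i = (X - C r) ^ n * g i) ∧ ∃ i, (g i).eval r ≠ 0 := by
  intro N
  induction N with
  | zero =>
    intro f hN ⟨i, hi⟩
    refine ⟨0, f, by simp, i, ?_⟩
    have h0 : (f i).natDegree = 0 := by
      have := Finset.single_le_sum (f := fun i => (f i).natDegree) (fun _ _ => Nat.zero_le _)
        (Finset.mem_univ i)
      omega
    rw [Polynomial.eq_C_of_natDegree_eq_zero h0, eval_C]
    intro h
    apply hi
    rw [Polynomial.eq_C_of_natDegree_eq_zero h0, h, C_0]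
  | succ N ih =>
    intro f hN ⟨i, hi⟩
    by_cases he : ∃ i, (f i).eval r ≠ 0
    · exact ⟨0, f, by simp, he⟩
    · push Not at he
      have hd : ∀ i, ∃ g, f i = (X - C r) * g := fun i => dvd_iff_isRoot.mpr (he i)
      choose g hg using hd
      have hdeg : ∀ i, (g i).natDegree ≤ (f i).natDegree := by
        intro j
        by_cases h : g j = 0
        · simp [h]
        · rw [hg j, natDegree_mul (X_sub_C_ne_zero r) h, natDegree_X_sub_C]
          omega
      have hgi : g i ≠ 0 := by
        intro h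
        apply hi
        rw [hg i, h, mul_zero]
      have hdegi : (g i).natDegree < (f i).natDegree := by
        rw [hg i, natDegree_mul (X_sub_C_ne_zero r) hgi, natDegree_X_sub_C]
        omega
      have hlt : ∑ i, (g i).natDegree < ∑ i, (f i).natDegree :=
        Finset.sum_lt_sum (fun j _ => hdeg j) ⟨i, Finset.mem_univ i, hdegi⟩
      obtain ⟨n, k, hk, hk2⟩ := ih g (by omega) ⟨i, hgi⟩
      refine ⟨n + 1, k, fun j => ?_, hk2⟩
      rw [hg j, hk j, pow_succ]
      ring

lemma exists_eval_ne {A : Type*} [CommRing A] [IsDomain A] (v : ℕ → A)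
    (hv : Function.Injective v) (g : A[X]) (hg : g ≠ 0) : ∃ n, g.eval (v n) ≠ 0 := by
  by_contra h
  push Not at h
  apply hg
  apply Polynomial.eq_zero_of_infinite_isRoot
  exact (Set.infinite_range_of_injective hv).mono (by
    rintro _ ⟨n, rfl⟩
    exact h n)

/-- The statement we need for polynomial vectors. -/
theorem poly_main (u : Fin 3 → PP) :
    ∃ (β γ δ σ : ℕ) (z : Fin 7 → PP),
      u 0 * F1 (chi pa pb pc β γ δ σ) z + u 1 * F2 (chi pa pb pc β γ δ σ) z + u 2 * z 2 = u 0 := by
  by_cases h0 : ∃ i, u i ≠ 0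
  · have h0' : ∃ i, toP (u i) ≠ 0 := by
      obtain ⟨i, hi⟩ := h0
      exact ⟨i, fun h => hi (by simpa using h)⟩
    obtain ⟨n, g', hg', i, hi⟩ := factor (C (C (2 : ℤ))) _ (fun i => toP (u i)) le_rfl h0'
    obtain ⟨δ, hδ⟩ := exists_eval_ne (fun n : ℕ => (C ((2 : ℤ) ^ n) : ℤ[X]))
      (by
        intro m n h
        have := C_injective h
        exact (Int.pow_right_injective (le_refl 2)) this) _ hi
    obtain ⟨γ, hγ⟩ := exists_eval_ne (fun n : ℕ => (2 : ℤ) ^ n)
      (Int.pow_right_injective (le_refl 2)) _ hδ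
    obtain ⟨m, hm⟩ : ∃ m : PP, ∀ i, u i = m * toP.symm (g' i) := by
      refine ⟨toP.symm ((X - C (C (C (2 : ℤ)))) ^ n), fun i => ?_⟩
      apply toP.injective
      rw [hg' i, map_mul]
      simp
    obtain ⟨β, σ, z, hz⟩ := core pa pb pc γ δ (ev (2 ^ γ) (2 ^ δ) 2) (by simp)
      (fun I ha hc hb F => congr_ev I _ _ _ ha hc hb F) (fun i => toP.symm (g' i))
      ⟨i, by rw [ev_apply]; simpa using hγ⟩
    refine ⟨β, γ, δ, σ, z, ?_⟩
    rw [hm 0, hm 1, hm 2]
    linear_combination m * hz
  · push Not at h0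
    refine ⟨0, 0, 0, 0, 0, ?_⟩
    rw [h0 0, h0 1, h0 2]
    ring

end Pool.Agent.VC
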